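import Pool.Agent.Helper92.ZH.Goals

/-!
# Packet T3-SEPV (MP_a41896_nt)
-/

set_option autoImplicit false

open MvPolynomial

namespace Pool.Agent.Helper41.ZH.SEPV

open Pool.Agent.Helper92.ZH

variable {K : Type} [Field K] {V : Type} [Fintype V] [DecidableEq V]

lemma mono (h0 : V) (u : V →₀ ℕ) (a : K) :
    sepV h0 (monomial u a) = Polynomial.C (monomial (u.erase h0) a) * Polynomial.X ^ (u h0) := by
  unfold sepV
  rw [aeval_monomial, Finsupp.prod_fintype _ _ (fun i => pow_zero _), monomial_eq,
    Finsupp.prod_fintype _ _ (fun i => pow_zero _), map_mul, map_prod, mul_assoc]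
  congr 1
  rw [← Finset.mul_prod_erase _ _ (Finset.mem_univ h0), if_pos rfl,
    ← Finset.mul_prod_erase Finset.univ (fun i => Polynomial.C (X i ^ (u.erase h0) i)) (Finset.mem_univ h0),
    Finsupp.erase_same, pow_zero, map_one, one_mul, mul_comm]
  congr 1
  refine Finset.prod_congr rfl fun i hi => ?_
  have hne : i ≠ h0 := (Finset.mem_erase.mp hi).1
  rw [if_neg hne, Finsupp.erase_ne hne, map_pow]

lemma coeff_sepV (h0 : V) (F : MvPolynomial V K) (k : ℕ) (m : V →₀ ℕ) :
    coeff m ((sepV h0 F).coeff k) = if m h0 = 0 then coeff (m + Finsupp.single h0 k) F else 0 := by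
  induction F using MvPolynomial.induction_on' with
  | monomial u a =>
    rw [mono, Polynomial.coeff_C_mul_X_pow, coeff_monomial]
    by_cases h1 : k = u h0
    · rw [if_pos h1, coeff_monomial]
      by_cases h2 : u.erase h0 = m
      · rw [if_pos h2]
        have h3 : m h0 = 0 := by rw [← h2, Finsupp.erase_same]
        have h4 : u = m + Finsupp.single h0 k := by
          rw [← h2, h1, Finsupp.erase_add_single]
        rw [if_pos h3, if_pos h4]
      · rw [if_neg h2]
        by_cases h3 : m h0 = 0
        · rw [if_pos h3, if_neg]
          intro h4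
          apply h2
          rw [h4]
          ext i
          by_cases hi : i = h0
          · subst hi
            rw [Finsupp.erase_same, h3]
          · rw [Finsupp.erase_ne hi, Finsupp.add_apply, Finsupp.single_apply, if_neg (fun h => hi h.symm), add_zero]
        · rw [if_neg h3]
    · rw [if_neg h1, coeff_zero]
      by_cases h3 : m h0 = 0
      · rw [if_pos h3, if_neg]
        intro h4
        apply h1
        rw [h4, Finsupp.add_apply, h3, Finsupp.single_eq_same, zero_add]
      · rw [if_neg h3]
  | add p q hp hq =>
    rw [map_add, Polynomial.coeff_add, coeff_add, hp, hq, coeff_add]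
    split_ifs
    · rfl
    · rw [add_zero]

theorem t : SEPV := by
  intro K _ V _ _ h0 F
  have hco := coeff_sepV h0 F
  have hsup : ∀ k m, m ∈ ((sepV h0 F).coeff k).support → m h0 = 0 ∧ m + Finsupp.single h0 k ∈ F.support := by
    intro k m hm
    rw [mem_support_iff, hco k m] at hm
    by_cases h : m h0 = 0
    · rw [if_pos h] at hm
      exact ⟨h, mem_support_iff.mpr hm⟩
    · rw [if_neg h] at hm
      exact absurd rfl hm
  refine ⟨?_, hco, ?_, ?_, ?_, ?_⟩
  · apply le_antisymm
    · rw [Polynomial.natDegree_le_iff_coeff_eq_zero]
      intro k hk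
      by_contra hne
      obtain ⟨m, hm⟩ := support_nonempty.mpr hne
      obtain ⟨-, h2⟩ := hsup k m hm
      have h3 := (degreeOf_le_iff (n := h0) (f := F) (d := F.degreeOf h0)).mp le_rfl _ h2
      rw [Finsupp.add_apply, Finsupp.single_eq_same] at h3
      omega
    · rw [degreeOf_le_iff]
      intro u hu
      apply Polynomial.le_natDegree_of_ne_zero
      intro h
      have h2 := hco (u h0) (u.erase h0)
      rw [h, coeff_zero, Finsupp.erase_same, if_pos rfl, Finsupp.erase_add_single] at h2
      exact (mem_support_iff.mp hu) h2.symm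
  · intro k h
    rw [degreeOf_le_iff]
    intro m hm
    obtain ⟨-, h2⟩ := hsup k m hm
    have h3 := (degreeOf_le_iff (n := h) (f := F) (d := F.degreeOf h)).mp le_rfl _ h2
    rw [Finsupp.add_apply] at h3
    omega
  · intro k
    apply Nat.le_zero.mp
    rw [degreeOf_le_iff]
    intro m hm
    exact (hsup k m hm).1.le
  · intro A _ _ x t
    clear hco hsup
    induction F using MvPolynomial.induction_on with
    | C a =>
      have h1 : sepV h0 (C a : MvPolynomial V K) = Polynomial.C (C a) := (sepV h0).commutes a
      rw [h1, Polynomial.map_C, Polynomial.eval_C]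
      show aeval x (C a : MvPolynomial V K) = _
      rw [aeval_C, aeval_C]
    | add p q hp hq =>
      rw [map_add, Polynomial.map_add, Polynomial.eval_add, hp, hq, map_add]
    | mul_X p i hp =>
      rw [map_mul, Polynomial.map_mul, Polynomial.eval_mul, hp, map_mul, aeval_X]
      congr 1
      unfold sepV
      rw [aeval_X]
      by_cases hi : i = h0
      · subst hi
        rw [if_pos rfl, Polynomial.map_X, Polynomial.eval_X, Function.update_self]
      · rw [if_neg hi, Polynomial.map_C, Polynomial.eval_C, Function.update_of_ne hi]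
        exact aeval_X x i
  · clear hco hsup
    induction F using MvPolynomial.induction_on with
    | C a =>
      have h1 : sepV h0 (C a : MvPolynomial V K) = Polynomial.C (C a) := (sepV h0).commutes a
      rw [h1, Polynomial.eval_C]
    | add p q hp hq =>
      rw [map_add, Polynomial.eval_add, hp, hq]
    | mul_X p i hp =>
      rw [map_mul, Polynomial.eval_mul, hp]
      congr 1
      unfold sepV
      rw [aeval_X]
      by_cases hi : i = h0
      · subst hi
        rw [if_pos rfl, Polynomial.eval_X]
      · rw [if_neg hi, Polynomial.eval_C]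

end Pool.Agent.Helper41.ZH.SEPV
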